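import Pool.Agent.Q16.Quillen.Main

/-!
# A relation in the Quillen negation monoid of Top that does not follow from lrl = l, rlr = r
-/

open CategoryTheory

universe u

namespace Pool.Agent.Results.MP_364315_al.NewRelation

/-- The two letters. -/
inductive Letter
  | l
  | r

/-- The Quillen negations of a class of morphisms of `Top`: `P ^ l` consists of the maps with the
left lifting property, `P ^ r` of the maps with the right lifting property with respect to all
members of `P`. -/
def neg (P : MorphismProperty TopCat.{u}) : Letter → MorphismProperty TopCat.{u}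
  | Letter.l => P.llp
  | Letter.r => P.rlp

/-- `P ^ w`: apply the letters of `w` from left to right. -/
def power (P : MorphismProperty TopCat.{u}) (w : FreeMonoid Letter) :
    MorphismProperty TopCat.{u} :=
  w.toList.foldl neg P

/-- The relations `lrl = l` and `rlr = r`. -/
inductive Rel : FreeMonoid Letter → FreeMonoid Letter → Prop
  | lrl : Rel (FreeMonoid.of Letter.l * FreeMonoid.of Letter.r * FreeMonoid.of Letter.l)
      (FreeMonoid.of Letter.l)
  | rlr : Rel (FreeMonoid.of Letter.r * FreeMonoid.of Letter.l * FreeMonoid.of Letter.r)
      (FreeMonoid.of Letter.r)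

/-- Count `l` with weight `1` and `r` with weight `-1`; this respects the two relations. -/
def weight : PresentedMonoid Rel →* Multiplicative ℤ :=
  PresentedMonoid.lift (fun a => match a with
    | Letter.l => Multiplicative.ofAdd 1
    | Letter.r => Multiplicative.ofAdd (-1)) (by
    intro a b h
    cases h <;> simp [FreeMonoid.lift_eval_of])

/-- The words `l⁸` and `l⁶` define different elements of the monoid presented by
`⟨l, r | lrl = l, rlr = r⟩`, but `P ^ (l⁸) = P ^ (l⁶)` for every class `P` of continuous maps. -/
theorem result :
    PresentedMonoid.mk Rel (FreeMonoid.of Letter.l ^ 8) ≠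
        PresentedMonoid.mk Rel (FreeMonoid.of Letter.l ^ 6) ∧
      ∀ P : MorphismProperty TopCat.{u},
        power P (FreeMonoid.of Letter.l ^ 8) = power P (FreeMonoid.of Letter.l ^ 6) := by
  refine ⟨?_, ?_⟩
  · intro h
    have h1 := congrArg weight h
    have h2 : weight (PresentedMonoid.mk Rel (FreeMonoid.of Letter.l)) = Multiplicative.ofAdd 1 :=
      PresentedMonoid.lift_of _ _
    rw [map_pow, map_pow, map_pow, map_pow, h2] at h1
    have h3 := congrArg Multiplicative.toAdd h1
    simp at h3
  · intro P
    exact Q16.Quillen.eight_eq_six P

end Pool.Agent.Results.MP_364315_al.NewRelation
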